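import Pool.Agent.H49.TRO.S1

/-!
# TRO: the pieces four and five of the corner
-/

set_option autoImplicit false

namespace Pool.TRO

open MvPolynomial Pool.FOS Pool.TRN

theorem t_cob (hKIA : KIAStmt) (hKIB : KIBStmt) : COBStmt := by
  intro c d
  constructor
  · apply hKIA (d + 1) 0
    intro u hu
    refine ⟨0, ?_⟩
    intro a ha b hb hab hu2
    simp only [T4, Cor, Finset.mem_filter] at ha hb
    obtain ⟨⟨_, h1, h2, h3⟩, h4⟩ := ha
    obtain ⟨⟨_, g1, g2, g3⟩, g4⟩ := hb
    simp only [Nat.zero_mul, Nat.zero_add] at hab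
    push_cast
    constructor
    · positivity
    · omega
  · apply hKIB (d + 1)
    intro u hu
    refine ⟨(((4 * c + 2 * d + u + 3) / 4 : ℕ) : ℤ), ?_⟩
    intro a ha b hb hab hu2
    simp only [T5, Cor, Finset.mem_filter] at ha hb
    obtain ⟨⟨_, h1, h2, h3⟩, h4, h5, h6⟩ := ha
    obtain ⟨⟨_, g1, g2, g3⟩, g4, g5, g6⟩ := hb
    constructor
    · omega
    · omega

end Pool.TRO
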