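import Pool.Agent.H49.TRO.S1

/-!
# TRO: the pieces six and seven of the corner
-/

set_option autoImplicit false

namespace Pool.TRO

open MvPolynomial Pool.FOS Pool.TRN

theorem t_coc (hKIA : KIAStmt) : COCStmt := by
  intro c d
  constructor
  · apply hKIA (d + 1) 1
    intro u hu
    refine ⟨(((4 * c + 4 * d + 3 * (u - 1)) / 4 + 1 : ℕ) : ℤ), ?_⟩
    intro a ha b hb hab hu2
    simp only [T6, Cor, Finset.mem_filter] at ha hb
    obtain ⟨⟨_, h1, h2, h3⟩, h4, h5, h6, h7⟩ := ha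
    obtain ⟨⟨_, g1, g2, g3⟩, g4, g5, g6, g7⟩ := hb
    simp only [Nat.one_mul] at hab
    push_cast
    constructor
    · omega
    · omega
  · apply hKIA (d + 1) 0
    intro u hu
    refine ⟨(((d + 3 * (u - 1)) / 4 + 1 : ℕ) : ℤ), ?_⟩
    intro a ha b hb hab hu2
    simp only [T7, Cor, Finset.mem_filter] at ha hb
    obtain ⟨⟨_, h1, h2, h3⟩, h4, h5, h6, h7⟩ := ha
    obtain ⟨⟨_, g1, g2, g3⟩, g4, g5, g6, g7⟩ := hb
    simp only [Nat.zero_mul, Nat.zero_add] at hab
    push_cast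
    constructor
    · omega
    · omega

end Pool.TRO
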