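import Pool.Agent.H49.TRO.S1

/-!
# TRO: the corner
-/

set_option autoImplicit false

namespace Pool.TRO

open MvPolynomial Pool.FOS Pool.TRN

theorem t_cor (hCTZ : CTZStmt) (hSBS : SBSStmt) (hCOA : COAStmt) (hCOB : COBStmt)
    (hCOC : COCStmt) : CORStmt := by
  intro c d
  obtain ⟨h1, h2, h3⟩ := hCOA c d
  obtain ⟨h4, h5⟩ := hCOB c d
  obtain ⟨h6, h7⟩ := hCOC c d
  set L : Finset (ℕ × ℕ) := (T4 c d).filter fun a => 4 * c + 4 * d < 4 * a.1 + a.2 with hL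
  have h4' : Cov (d + 1) 1 L := hSBS _ _ _ _ (Finset.filter_subset _ _) h4
  have e12 : Cov (d + 1) (1 + 1) (T1 c d ∪ T2 c d) := by
    refine hCTZ (d + 1) 1 1 1 1 _ _ ?_ h1 h2
    intro a ha b hb
    simp only [T1, T2, Finset.mem_filter] at ha hb
    omega
  have e123 : Cov (d + 1) (1 + 1 + 1) (T1 c d ∪ T2 c d ∪ T3 c d) := by
    refine hCTZ (d + 1) (1 + 1) 1 2 1 _ _ ?_ e12 h3
    intro a ha b hb
    simp only [T1, T2, T3, Finset.mem_filter, Finset.mem_union] at ha hb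
    omega
  have e67 : Cov (d + 1) (1 + 1) (T6 c d ∪ T7 c d) := by
    refine hCTZ (d + 1) 1 1 3 4 _ _ ?_ h6 h7
    intro a ha b hb
    simp only [T6, T7, Finset.mem_filter] at ha hb
    omega
  have e567 : Cov (d + 1) (1 + 1 + 1) (T6 c d ∪ T7 c d ∪ T5 c d) := by
    refine hCTZ (d + 1) (1 + 1) 1 (-1) 3 _ _ ?_ e67 h5
    intro a ha b hb
    simp only [T6, T7, T5, Finset.mem_filter, Finset.mem_union] at ha hb
    omega
  have e4567 : Cov (d + 1) (1 + 1 + 1 + 1) (T6 c d ∪ T7 c d ∪ T5 c d ∪ L) := by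
    refine hCTZ (d + 1) (1 + 1 + 1) 1 1 0 _ _ ?_ e567 h4'
    intro a ha b hb
    simp only [hL, T4, T6, T7, T5, Finset.mem_filter, Finset.mem_union] at ha hb
    omega
  have e : Cov (d + 1) (1 + 1 + 1 + (1 + 1 + 1 + 1))
      ((T1 c d ∪ T2 c d ∪ T3 c d) ∪ (T6 c d ∪ T7 c d ∪ T5 c d ∪ L)) := by
    refine hCTZ (d + 1) (1 + 1 + 1) (1 + 1 + 1 + 1) 4 1 _ _ ?_ e123 e4567
    intro a ha b hb
    simp only [hL, T1, T2, T3, T4, T6, T7, T5, Finset.mem_filter, Finset.mem_union] at ha hb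
    omega
  refine hSBS _ _ _ _ ?_ e
  intro a ha
  simp only [hL, T1, T2, T3, T4, T6, T7, T5, Finset.mem_filter, Finset.mem_union, ha, true_and]
  omega

end Pool.TRO
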