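import Pool.Agent.H49.TRO.S1

/-!
# TRO: for large `d` one of the two bounds is at most the conjectured value plus one
-/

set_option autoImplicit false

namespace Pool.TRO

open MvPolynomial Pool.FOS Pool.TRN

/-- odd savings, real numbers (`X = u + 1`) -/
theorem nmd_odd (k d X : ℝ) (hk : 4 ≤ k) (hd : 0 < d) (hX : 1 ≤ X) (h7 : 7 * k ^ 3 ≤ d ^ 2)
    (H : 2 * X * ((d + 1) * (d + 2)) ≤ 3 * k * (k - 1) * d + 2 * k ^ 2 - 2) :
    (2 * X - 1) * d ≤ (k - 2 - X) * (3 * k - X) := by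
  have hP : 0 ≤ 3 * k * (k - 1) * d + 2 * k ^ 2 - 2 - 2 * X * ((d + 1) * (d + 2)) := by linarith
  have hX2 : 0 ≤ X ^ 2 - 1 := by nlinarith
  have t1 : 0 ≤ (d + 2 * k - 4) *
      (3 * k * (k - 1) * d + 2 * k ^ 2 - 2 - 2 * X * ((d + 1) * (d + 2))) :=
    mul_nonneg (by linarith) hP
  have t2 : 0 ≤ (X - 1) * (d * (12 * k - 20) + 4 * (2 * k - 4)) := by
    apply mul_nonneg (by linarith)
    have : 0 ≤ d * (12 * k - 20) := mul_nonneg hd.le (by linarith)
    linarith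
  have t3 : 0 ≤ (X ^ 2 - 1) * d ^ 2 := mul_nonneg hX2 (by positivity)
  have t4 : 0 ≤ (6 * d / 7 + 4 / 7) * (d ^ 2 - 7 * k ^ 3) :=
    mul_nonneg (by positivity) (by linarith)
  have t5 : 0 ≤ d / 7 * ((d - 21 / 2 * k + 3 / 2) ^ 2 + 63 / 2 * (k - 4) + (7 / 4 * k ^ 2 - 9 / 4)) := by
    apply mul_nonneg (by positivity)
    have : 0 ≤ (d - 21 / 2 * k + 3 / 2) ^ 2 := sq_nonneg _
    nlinarith
  have t6 : 0 ≤ 8 * k ^ 2 + 12 * k - 24 := by nlinarith
  have key : 0 ≤ d ^ 2 * ((k - 2 - X) * (3 * k - X) - (2 * X - 1) * d) := by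
    have e : d ^ 2 * ((k - 2 - X) * (3 * k - X) - (2 * X - 1) * d) =
        (d + 2 * k - 4) *
          (3 * k * (k - 1) * d + 2 * k ^ 2 - 2 - 2 * X * ((d + 1) * (d + 2))) +
        (X - 1) * (d * (12 * k - 20) + 4 * (2 * k - 4)) + (X ^ 2 - 1) * d ^ 2 +
        (6 * d / 7 + 4 / 7) * (d ^ 2 - 7 * k ^ 3) +
        d / 7 * ((d - 21 / 2 * k + 3 / 2) ^ 2 + 63 / 2 * (k - 4) + (7 / 4 * k ^ 2 - 9 / 4)) +
        (8 * k ^ 2 + 12 * k - 24) := by ring
    rw [e]; linarith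
  have := nonneg_of_mul_nonneg_right key (by positivity)
  linarith

/-- even savings, real numbers -/
theorem nmd_even (k d q : ℝ) (hk : 2 ≤ k) (hd : 7 ≤ d) (hq : 1 ≤ q) (h7 : 7 * k ^ 3 ≤ d ^ 2)
    (H : (2 * q + 1) * ((d + 1) * (d + 2)) ≤ 3 * k * (k - 1) * d + 2 * k ^ 2 - 2) :
    2 * q * d ≤ (k - 1 - q) * (3 * k - q) := by
  have hP : 0 ≤ 3 * k * (k - 1) * d + 2 * k ^ 2 - 2 - (2 * q + 1) * ((d + 1) * (d + 2)) := by
    linarith
  have hd0 : 0 < d := by linarith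
  have t1 : 0 ≤ (d + (4 * k - 7) / 2) *
      (3 * k * (k - 1) * d + 2 * k ^ 2 - 2 - (2 * q + 1) * ((d + 1) * (d + 2))) :=
    mul_nonneg (by linarith) hP
  have t2 : 0 ≤ (q ^ 2 - 1) * d ^ 2 := mul_nonneg (by nlinarith) (by positivity)
  have t3 : 0 ≤ (q - 1) * d := mul_nonneg (by linarith) hd0.le
  have t4 : 0 ≤ (4 * k - 7) / 2 * ((2 * q - 2) * (3 * d + 2)) :=
    mul_nonneg (by linarith) (mul_nonneg (by linarith) (by linarith))
  have t5 : 0 ≤ d * (d ^ 2 - 7 * k ^ 3) := mul_nonneg hd0.le (by linarith)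
  have t6 : 0 ≤ (4 * k - 7) / 2 * (d ^ 2 + 3 * k * d + 9 * d + 8) :=
    mul_nonneg (by linarith) (by positivity)
  have t7 : 0 ≤ (d - 4) * k ^ 3 := mul_nonneg (by linarith) (by positivity)
  have t8 : 0 ≤ k ^ 2 * d * (17 / 2) := by positivity
  have key : 0 ≤ d ^ 2 * ((k - 1 - q) * (3 * k - q) - 2 * q * d) := by
    have e : d ^ 2 * ((k - 1 - q) * (3 * k - q) - 2 * q * d) =
        (d + (4 * k - 7) / 2) *
          (3 * k * (k - 1) * d + 2 * k ^ 2 - 2 - (2 * q + 1) * ((d + 1) * (d + 2))) +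
        (q ^ 2 - 1) * d ^ 2 + 4 * ((q - 1) * d) +
        (4 * k - 7) / 2 * ((2 * q - 2) * (3 * d + 2)) +
        d * (d ^ 2 - 7 * k ^ 3) + (4 * k - 7) / 2 * (d ^ 2 + 3 * k * d + 9 * d + 8) +
        (d - 4) * k ^ 3 + k ^ 2 * d * (17 / 2) + (4 * d ^ 2 + 8 * d + 7 * k ^ 2) := by ring
    rw [e]
    have : 0 ≤ 4 * d ^ 2 + 8 * d + 7 * k ^ 2 := by positivity
    linarith
  have := nonneg_of_mul_nonneg_right key (by positivity)
  linarith

theorem t_nmd : NMDStmt := by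
  intro k d s hk h7 H
  by_cases hs : k ^ 2 ≤ s + 1
  · exact Or.inl ⟨0, by omega, by simp, by simpa using hs⟩
  push Not at hs
  obtain ⟨j, hj⟩ : ∃ j, k ^ 2 = s + 1 + j := ⟨k ^ 2 - (s + 1), by omega⟩
  have hj1 : 1 ≤ j := by omega
  have hkR : (2 : ℝ) ≤ k := by exact_mod_cast hk
  have h7R : 7 * (k : ℝ) ^ 3 ≤ (d : ℝ) ^ 2 := by exact_mod_cast h7
  have hd7 : 7 ≤ d := by
    by_contra hcon
    push Not at hcon
    have h8 : 8 ≤ k ^ 3 := by
      calc 8 = 2 ^ 3 := by norm_num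
        _ ≤ k ^ 3 := Nat.pow_le_pow_left hk 3
    have : d ^ 2 ≤ 6 ^ 2 := Nat.pow_le_pow_left (by omega) 2
    omega
  have hdR : (7 : ℝ) ≤ d := by exact_mod_cast hd7
  have HR : ((j : ℝ) + 1) * (((d : ℝ) + 1) * (d + 2)) ≤
      3 * k * ((k : ℝ) - 1) * d + 2 * (k : ℝ) ^ 2 - 2 := by
    have h1 : ((k : ℝ) * d + 1) * (k * d + 2) ≤ s * (((d : ℝ) + 1) * (d + 2)) := by
      exact_mod_cast H
    have h2 : (k : ℝ) ^ 2 = s + 1 + j := by exact_mod_cast hj
    have h3 : (s : ℝ) = (k : ℝ) ^ 2 - 1 - j := by linarith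
    rw [h3] at h1
    nlinarith
  have hdk : 3 * (k : ℝ) ≤ d := by
    by_contra hcon
    push Not at hcon
    have h1 : (d : ℝ) ^ 2 < (3 * k) ^ 2 := by
      apply pow_lt_pow_left₀ hcon (by positivity) (by norm_num)
    have h2 : 14 * (k : ℝ) ^ 2 ≤ 7 * (k : ℝ) ^ 3 := by
      have : 0 ≤ (k : ℝ) ^ 2 * (k - 2) := mul_nonneg (by positivity) (by linarith)
      nlinarith
    have h3 : 0 < (k : ℝ) ^ 2 := by positivity
    nlinarith
  rcases Nat.even_or_odd j with ⟨q, hq⟩ | ⟨u, hu⟩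
  · left
    have hjq : (j : ℝ) = 2 * q := by rw [hq]; push_cast; ring
    rw [hjq] at HR
    have hq1 : 1 ≤ q := by omega
    have hq1R : (1 : ℝ) ≤ q := by exact_mod_cast hq1
    have hqk : q < k := by
      by_contra hcon
      push Not at hcon
      have hR : (k : ℝ) ≤ q := by exact_mod_cast hcon
      have e1 : (2 * (k : ℝ) + 1) * (((d : ℝ) + 1) * (d + 2)) ≤
          (2 * (q : ℝ) + 1) * (((d : ℝ) + 1) * (d + 2)) := by
        apply mul_le_mul_of_nonneg_right (by linarith) (by positivity)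
      have e2 : 0 ≤ (k : ℝ) * d * ((d : ℝ) - 3 * k) := mul_nonneg (by positivity) (by linarith)
      have e3 : 0 ≤ (k : ℝ) * ((d : ℝ) - 3 * k) := mul_nonneg (by positivity) (by linarith)
      have e4 : 0 < (k : ℝ) * d := by positivity
      have e5 : 0 < (k : ℝ) * d * d := by positivity
      have e6 : 0 < (k : ℝ) ^ 2 * d := by positivity
      nlinarith
    have h := nmd_even k d q hkR hdR hq1R h7R HR
    refine ⟨q, hqk, ?_, by omega⟩
    have c1 : ((k - 1 - q : ℕ) : ℝ) = (k : ℝ) - 1 - q := by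
      rw [Nat.sub_sub, Nat.cast_sub (by omega)]; push_cast; ring
    have c2 : ((3 * k - q : ℕ) : ℝ) = 3 * (k : ℝ) - q := by
      rw [Nat.cast_sub (by omega)]; push_cast; ring
    have : ((2 * q * d : ℕ) : ℝ) ≤ (((k - 1 - q) * (3 * k - q) : ℕ) : ℝ) := by
      push_cast [c1, c2]
      linarith
    exact_mod_cast this
  · right
    have hju : (j : ℝ) + 1 = 2 * ((u : ℝ) + 1) := by rw [hu]; push_cast; ring
    rw [hju] at HR
    have hu0 : (0 : ℝ) ≤ u := by positivity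
    have e0 : 2 * (((d : ℝ) + 1) * (d + 2)) ≤ 2 * ((u : ℝ) + 1) * (((d : ℝ) + 1) * (d + 2)) := by
      apply mul_le_mul_of_nonneg_right (by linarith) (by positivity)
    have hk4 : 4 ≤ k := by
      by_contra hcon
      push Not at hcon
      have hk3 : (k : ℝ) ≤ 3 := by exact_mod_cast (by omega : k ≤ 3)
      have e1 : 3 * (k : ℝ) * ((k : ℝ) - 1) * d ≤ 3 * (k : ℝ) * 2 * d := by
        apply mul_le_mul_of_nonneg_right _ (by positivity)
        apply mul_le_mul_of_nonneg_left (by linarith) (by positivity)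
      have e2 : (k : ℝ) * d ≤ (d : ℝ) * d / 3 := by nlinarith
      have e3 : (k : ℝ) ^ 2 ≤ 9 := by nlinarith
      nlinarith
    have hk4R : (4 : ℝ) ≤ k := by exact_mod_cast hk4
    have huk : u ≤ k - 3 := by
      by_contra hcon
      push Not at hcon
      have hR : (k : ℝ) - 1 ≤ (u : ℝ) + 1 := by
        have : k ≤ u + 2 := by omega
        have : (k : ℝ) ≤ u + 2 := by exact_mod_cast this
        linarith
      have e1 : 2 * ((k : ℝ) - 1) * (((d : ℝ) + 1) * (d + 2)) ≤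
          2 * ((u : ℝ) + 1) * (((d : ℝ) + 1) * (d + 2)) := by
        apply mul_le_mul_of_nonneg_right (by linarith) (by positivity)
      have e2 : ((k : ℝ) - 1) * (2 * (((d : ℝ) + 1) * (d + 2)) - 3 * k * d - 2 * (k + 1)) ≤ 0 := by
        nlinarith
      have e3 : 0 < 2 * (((d : ℝ) + 1) * (d + 2)) - 3 * k * d - 2 * (k + 1) := by nlinarith
      have e4 : 0 < ((k : ℝ) - 1) * (2 * (((d : ℝ) + 1) * (d + 2)) - 3 * k * d - 2 * (k + 1)) :=
        mul_pos (by linarith) e3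
      linarith
    have h := nmd_odd k d ((u : ℝ) + 1) hk4R (by linarith) (by linarith) h7R HR
    refine ⟨u, hk4, huk, ?_, by omega⟩
    have c1 : ((k - 3 - u : ℕ) : ℝ) = (k : ℝ) - 3 - u := by
      rw [Nat.sub_sub, Nat.cast_sub (by omega)]; push_cast; ring
    have c2 : ((3 * k - u - 1 : ℕ) : ℝ) = 3 * (k : ℝ) - u - 1 := by
      rw [Nat.sub_sub, Nat.cast_sub (by omega)]; push_cast; ring
    have : (((2 * u + 1) * d : ℕ) : ℝ) ≤ (((k - 3 - u) * (3 * k - u - 1) : ℕ) : ℝ) := by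
      push_cast [c1, c2]
      nlinarith
    exact_mod_cast this

end Pool.TRO
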