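import Pool.Agent.H49.TRO.S1

/-!
# TRO: the triangle
-/

set_option autoImplicit false

namespace Pool.TRO

open MvPolynomial Pool.FOS Pool.TRN

theorem t_tro (hSBS : SBSStmt) (hCUT : CUTStmt) (hUPR : UPRStmt) (hCOR : CORStmt)
    (hRCT : RCTStmt) (hLWR : LWRStmt) : TROStmt := by
  intro d h₁ h₂ i D J c P₁ P₂ hi h2 h12 hD h4 hc1 hc2
  have r1 : Cov (d + 1) (2 * P₁) (Finset.range c ×ˢ Finset.range h₁) := hRCT d i P₁ c h₁ hi hc1
  have r2 : Cov (d + 1) (2 * P₂) (Lw d h₁ h₂ c) := hLWR d h₁ h₂ c P₂ h2 hc2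
  have r3 : Cov (d + 1) 7 ((Cor c d).filter fun a => a.1 + (d + 2) * a.2 < (d + 2) * (h₁ + h₂)) :=
    hSBS _ _ _ _ (Finset.filter_subset _ _) (hCOR c d)
  have r4 : Cov (d + 1) (J ^ 2) (Up d (h₁ + h₂) J) := hUPR d (h₁ + h₂) J
  have e1 : Cov (d + 1) (2 * P₁ + 2 * P₂) ((Finset.range c ×ˢ Finset.range h₁) ∪ Lw d h₁ h₂ c) := by
    refine hCUT _ _ _ 0 1 _ _ ?_ r1 r2
    intro a ha b hb
    simp only [Lw, Finset.mem_filter, Finset.mem_product, Finset.mem_range] at ha hb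
    omega
  set M : Finset (ℕ × ℕ) :=
    ((Finset.range c ×ˢ Finset.range h₁) ∪ Lw d h₁ h₂ c).filter
      fun a => a.1 + (d + 2) * a.2 < (d + 2) * (h₁ + h₂) with hM
  have e1' : Cov (d + 1) (2 * P₁ + 2 * P₂) M := hSBS _ _ _ _ (Finset.filter_subset _ _) e1
  have e2 : Cov (d + 1) (2 * P₁ + 2 * P₂ + 7)
      (M ∪ ((Cor c d).filter fun a => a.1 + (d + 2) * a.2 < (d + 2) * (h₁ + h₂))) := by
    refine hCUT _ _ _ 1 0 _ _ ?_ e1' r3
    intro a ha b hb
    simp only [hM, Lw, Cor, Finset.mem_filter, Finset.mem_product, Finset.mem_range,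
      Finset.mem_union] at ha hb
    omega
  have e3 : Cov (d + 1) (2 * P₁ + 2 * P₂ + 7 + J ^ 2)
      ((M ∪ ((Cor c d).filter fun a => a.1 + (d + 2) * a.2 < (d + 2) * (h₁ + h₂))) ∪
        Up d (h₁ + h₂) J) := by
    refine hCUT _ _ _ 1 (d + 2) _ _ ?_ e2 r4
    intro a ha b hb
    simp only [hM, Up, Finset.mem_filter, Finset.mem_union] at ha hb
    omega
  rw [show J ^ 2 + 2 * P₁ + 2 * P₂ + 7 = 2 * P₁ + 2 * P₂ + 7 + J ^ 2 by ring]
  refine hSBS _ _ _ _ ?_ e3
  intro a ha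
  simp only [Tri, box, Finset.mem_filter, Finset.mem_product, Finset.mem_range] at ha
  obtain ⟨⟨hx, hy⟩, hxy⟩ := ha
  by_cases hlow : a.1 + (d + 2) * a.2 < (d + 2) * (h₁ + h₂)
  · have hy2 : a.2 < h₁ + h₂ := by
      by_contra hcon
      push Not at hcon
      have := Nat.mul_le_mul_left (d + 2) hcon
      omega
    refine Finset.mem_union_left _ ?_
    by_cases hxc : a.1 < c
    · refine Finset.mem_union_left _ ?_
      simp only [hM, Finset.mem_filter, Finset.mem_union, Finset.mem_product, Finset.mem_range,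
        Lw]
      refine ⟨?_, hlow⟩
      by_cases hyh : a.2 < h₁
      · exact Or.inl ⟨hxc, hyh⟩
      · exact Or.inr ⟨⟨hxc, hy2⟩, by omega, hlow⟩
    · refine Finset.mem_union_right _ ?_
      simp only [Cor, box, Finset.mem_filter, Finset.mem_product, Finset.mem_range]
      refine ⟨⟨⟨by omega, by omega⟩, by omega, by omega, by omega⟩, hlow⟩
  · refine Finset.mem_union_right _ ?_
    simp only [Up, box, Finset.mem_filter, Finset.mem_product, Finset.mem_range]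
    refine ⟨⟨by omega, by omega⟩, by omega, by omega⟩

end Pool.TRO
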